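import Pool.Agent.Helper68.SG2.GoalsE

/-!
# Packet SH2-CONV (project SG, stage 2): from the coordinates `u` to `x = u / (u - 1)^2`

With `s = 1 / (u - 1)` we have `u / (u - 1)^2 = s^2 + s`: reverse the exponents, then use that `K[s, s']` is integral over
`K[s^2 + s, s'^2 + s']`.
-/

set_option autoImplicit false

open MvPolynomial

namespace Pool.Agent.Helper2.SG2

open Pool.Agent.Helper68.SG2

noncomputable section

section conv

variable {K : Type} [Field K]

/-- the shift `X i ↦ X i + 1`. -/
def cvsh (T : Fin 2 → Bool) : MvPolynomial (Fin 2) K →ₐ[K] MvPolynomial (Fin 2) K :=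
  aeval fun i => if T i = true then X i + 1 else X i

/-- the inverse shift. -/
def cvsi (T : Fin 2 → Bool) : MvPolynomial (Fin 2) K →ₐ[K] MvPolynomial (Fin 2) K :=
  aeval fun i => if T i = true then X i - 1 else X i

lemma cvsh_inj (T : Fin 2 → Bool) : Function.Injective (cvsh (K := K) T) := by
  have h : (cvsi (K := K) T).comp (cvsh T) = AlgHom.id K _ := by
    apply MvPolynomial.algHom_ext
    intro i
    show cvsi T (cvsh T (X i)) = X i
    unfold cvsh
    rw [aeval_X]
    by_cases hT : T i = true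
    · rw [if_pos hT, map_add, map_one]
      unfold cvsi
      rw [aeval_X, if_pos hT, sub_add_cancel]
    · rw [if_neg hT]
      unfold cvsi
      rw [aeval_X, if_neg hT]
  intro a b hab
  have h1 := congrArg (cvsi T) hab
  have h2 : ∀ a, cvsi T (cvsh T a) = a := fun a => congrArg (fun f => f a) h
  rwa [h2, h2] at h1

lemma eval_ae (s : Fin 2 → K) (F : Fin 2 → MvPolynomial (Fin 2) K) (g : MvPolynomial (Fin 2) K) :
    eval s (aeval F g) = eval (fun i => eval s (F i)) g := by
  have h := congrArg (fun f => f g) (MvPolynomial.comp_aeval F (aeval (R := K) s))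
  exact h

/-- reversal of the exponents. -/
def cvrv (T : Fin 2 → Bool) (d : ℕ) (m : Fin 2 →₀ ℕ) : Fin 2 →₀ ℕ :=
  Finsupp.equivFunOnFinite.symm fun i => if T i = true then d - m i else m i

lemma cvrv_apply (T : Fin 2 → Bool) (d : ℕ) (m : Fin 2 →₀ ℕ) (i : Fin 2) :
    cvrv T d m i = if T i = true then d - m i else m i := rfl

lemma le_td {Z : MvPolynomial (Fin 2) K} {m : Fin 2 →₀ ℕ} (h : m ∈ Z.support) (i : Fin 2) :
    m i ≤ Z.totalDegree :=
  (monomial_le_degreeOf i h).trans (degreeOf_le_totalDegree Z i)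

/-- the reversed polynomial. -/
def cvrp (T : Fin 2 → Bool) (Z : MvPolynomial (Fin 2) K) : MvPolynomial (Fin 2) K :=
  ∑ m ∈ Z.support, monomial (cvrv T Z.totalDegree m) (coeff m Z)

lemma cvrp_ne (T : Fin 2 → Bool) {Z : MvPolynomial (Fin 2) K} (hZ : Z ≠ 0) : cvrp T Z ≠ 0 := by
  obtain ⟨m0, hm0⟩ := support_nonempty.2 hZ
  intro h
  have h1 := congrArg (coeff (cvrv T Z.totalDegree m0)) h
  unfold cvrp at h1
  rw [coeff_sum, coeff_zero, Finset.sum_eq_single m0] at h1
  · rw [coeff_monomial, if_pos rfl] at h1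
    exact mem_support_iff.1 hm0 h1
  · intro m hm hne
    rw [coeff_monomial, if_neg]
    intro h2
    apply hne
    ext i
    have h3 := congrArg (fun f : Fin 2 →₀ ℕ => f i) h2
    simp only [cvrv_apply] at h3
    have h4 := le_td hm i
    have h5 := le_td hm0 i
    split_ifs at h3 <;> omega
  · intro h2
    exact absurd hm0 h2

lemma eval_cvrp (T : Fin 2 → Bool) (Z : MvPolynomial (Fin 2) K) (w : Fin 2 → K)
    (hw : ∀ i, T i = true → w i ≠ 0) :
    eval (fun i => if T i = true then (w i)⁻¹ else w i) (cvrp T Z) =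
      (∏ i, if T i = true then ((w i)⁻¹) ^ Z.totalDegree else 1) * eval w Z := by
  unfold cvrp
  rw [map_sum, eval_eq' w Z, Finset.mul_sum]
  refine Finset.sum_congr rfl fun m hm => ?_
  rw [eval_monomial, Finsupp.prod_fintype _ _ (fun i => pow_zero _), mul_left_comm,
    ← Finset.prod_mul_distrib]
  congr 1
  refine Finset.prod_congr rfl fun i _ => ?_
  rw [cvrv_apply]
  by_cases hT : T i = true
  · rw [if_pos hT, if_pos hT, if_pos hT]
    have h1 := le_td hm i
    have h2 := hw i hT
    obtain ⟨k, hk⟩ := Nat.exists_eq_add_of_le h1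
    rw [hk, Nat.add_sub_cancel_left, pow_add, mul_right_comm, ← mul_pow, inv_mul_cancel₀ h2,
      one_pow, one_mul]
  · rw [if_neg hT, if_neg hT, if_neg hT, one_mul]

/-- `s ↦ s^2 + s`. -/
def cvF (T : Fin 2 → Bool) (i : Fin 2) : MvPolynomial (Fin 2) K :=
  if T i = true then X i ^ 2 + X i else X i

/-- the substitution `s ↦ s^2 + s`. -/
def cvph (T : Fin 2 → Bool) : MvPolynomial (Fin 2) K →+* MvPolynomial (Fin 2) K :=
  (aeval (cvF T) : MvPolynomial (Fin 2) K →ₐ[K] MvPolynomial (Fin 2) K)

lemma cvph_int (T : Fin 2 → Bool) (f : MvPolynomial (Fin 2) K) :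
    (cvph T).IsIntegralElem f := by
  induction f using MvPolynomial.induction_on with
  | C a =>
    have h : cvph T (C a) = C a := by
      exact aeval_C (R := K) (cvF T) a
    rw [← h]
    exact (cvph T).isIntegralElem_map
  | add p q hp hq => exact hp.add _ hq
  | mul_X p i hp =>
    refine hp.mul _ ?_
    have h : cvph T (X i : MvPolynomial (Fin 2) K) = cvF T i := by
      exact aeval_X (R := K) (cvF T) i
    by_cases hT : T i = true
    · refine ⟨Polynomial.X ^ 2 + (Polynomial.X - Polynomial.C (X i)), ?_, ?_⟩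
      · apply Polynomial.monic_X_pow_add
        exact (Polynomial.degree_X_sub_C_le (X i : MvPolynomial (Fin 2) K)).trans_lt
          (by norm_num)
      · rw [Polynomial.eval₂_add, Polynomial.eval₂_sub, Polynomial.eval₂_pow,
          Polynomial.eval₂_X, Polynomial.eval₂_C, h, cvF, if_pos hT]
        ring
    · have h2 : cvph T (X i : MvPolynomial (Fin 2) K) = X i := by rw [h, cvF, if_neg hT]
      rw [← h2]
      exact (cvph T).isIntegralElem_map

lemma cv_exists (T : Fin 2 → Bool) {f : MvPolynomial (Fin 2) K} (hf : f ≠ 0) :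
    ∃ g : MvPolynomial (Fin 2) K, g ≠ 0 ∧ ∃ h, cvph T g = f * h := by
  obtain ⟨p, hp, hp2⟩ := cvph_int T f
  obtain ⟨i, hi, hi2⟩ := Ideal.exists_coeff_ne_zero_mem_comap_of_root_mem hf
    (Ideal.mem_span_singleton_self f) hp.ne_zero hp2
  refine ⟨p.coeff i, hi, ?_⟩
  rw [Ideal.mem_comap, Ideal.mem_span_singleton] at hi2
  exact hi2

end conv

theorem t_CONV : Pool.Agent.Helper68.SG2.CONV := by
  intro K _ _ t₁ t₂ Z hZ
  set T : Fin 2 → Bool := fun i => if i = 0 then t₁ else t₂ with hTdef
  have hZw : cvsh T Z ≠ 0 := fun h => hZ (cvsh_inj T (h.trans (map_zero _).symm))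
  obtain ⟨g, hg, h, hgh⟩ := cv_exists T (cvrp_ne T hZw)
  refine ⟨g, hg, fun u₁ u₂ hu₁ hu₂ hev => ?_⟩
  set u : Fin 2 → K := fun i => if i = 0 then u₁ else u₂ with hu
  set w : Fin 2 → K := fun i => if T i = true then u i - 1 else u i with hw
  have hu1 : ∀ i, T i = true → u i ≠ 1 := by
    intro i
    fin_cases i
    · exact hu₁
    · exact hu₂
  have hw0 : ∀ i, T i = true → w i ≠ 0 := by
    intro i hT
    rw [hw]
    show (if T i = true then u i - 1 else u i) ≠ 0
    rw [if_pos hT]
    exact sub_ne_zero.2 (hu1 i hT)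
  have hZw2 : eval w (cvsh T Z) = 0 := by
    unfold cvsh
    rw [eval_ae]
    refine Eq.trans (congrArg (fun v => eval v Z) ?_) hev
    funext i
    by_cases hT : T i = true
    · rw [if_pos hT, map_add, map_one, eval_X, hw]
      show (if T i = true then u i - 1 else u i) + 1 = u i
      rw [if_pos hT, sub_add_cancel]
    · rw [if_neg hT, eval_X, hw]
      show (if T i = true then u i - 1 else u i) = u i
      rw [if_neg hT]
  have h1 := eval_cvrp T (cvsh T Z) w hw0
  rw [hZw2, mul_zero] at h1
  have h2 := congrArg (eval fun i => if T i = true then (w i)⁻¹ else w i) hgh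
  rw [map_mul, h1, zero_mul] at h2
  have h3 : eval (fun i => if T i = true then (w i)⁻¹ else w i) (aeval (cvF T) g) = 0 := h2
  rw [eval_ae] at h3
  refine Eq.trans (congrArg (fun v => eval v g) ?_) h3
  have key : ∀ i, (if T i = true then u i / (u i - 1) ^ 2 else u i) =
      eval (fun i => if T i = true then (w i)⁻¹ else w i) (cvF T i) := by
    intro i
    by_cases hT : T i = true
    · have h4 : u i - 1 ≠ 0 := sub_ne_zero.2 (hu1 i hT)
      have h5 : w i = u i - 1 := if_pos hT
      rw [cvF, if_pos hT, if_pos hT, map_add, map_pow, eval_X, if_pos hT, h5]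
      field_simp
      ring
    · have h5 : w i = u i := if_neg hT
      rw [cvF, if_neg hT, if_neg hT, eval_X, if_neg hT, h5]
  funext i
  rw [← key i]
  fin_cases i
  · rfl
  · rfl

end

end Pool.Agent.Helper2.SG2
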